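import Pool.Agent.H61.KW.TB
import Pool.Agent.H67.KU.GAU

/-!
Kuiper board KW, module EXA: a simplicial face of rank 5 without relative interior points in
`Mh m` has at most two essential facets.
-/

open Topology Set
open Pool.Agent.H59 Pool.Agent.H64.LB Pool.Agent.H61.KU Pool.Agent.H61.KV Pool.Agent.H61.KW
open scoped unitInterval

namespace Pool.Agent.H35.KW.EXA

section coords

variable {V : Type} [NormedAddCommGroup V] [NormedSpace ℝ V] [FiniteDimensional ℝ V] {C : Set V}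

/-- the coefficients of the facet which is opposite to `x j` -/
def ind (j : Fin 5) (i : Fin 5) : ℝ := if i = j then 0 else 1

theorem ind_nonneg (j i : Fin 5) : 0 ≤ ind j i := by
  unfold ind
  split <;> norm_num

theorem eq_of_sum {x : Fin 5 → V} (hx : LinearIndependent ℝ x) {c d : Fin 5 → ℝ}
    (h : ∑ i, c i • x i = ∑ i, d i • x i) : c = d := by
  have h2 : ∑ i, (c i - d i) • x i = 0 := by
    simp only [sub_smul, Finset.sum_sub_distrib, h, sub_self]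
  funext i
  have := (Fintype.linearIndependent_iff.1 hx) (fun i => c i - d i) h2 i
  exact sub_eq_zero.1 this

/-- the fifth part of `T_GNF` -/
def G5 (C : Set V) (x : Fin 5 → V) : Prop :=
  ∀ c : Fin 5 → ℝ, (∀ i, 0 ≤ c i) → ∀ r ∈ Fc C (∑ i, c i • x i),
    ∃ d : Fin 5 → ℝ, (∀ i, 0 ≤ d i) ∧ (∀ i, c i = 0 → d i = 0) ∧ r = ∑ i, d i • x i

theorem coords {x : Fin 5 → V} (hx : LinearIndependent ℝ x) (h5 : G5 C x) (j : Fin 5) (p : V)
    (h1 : p ∈ Fc C (∑ i, ind j i • x i)) (h2 : (∑ i, ind j i • x i) ∈ Fc C p) :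
    ∃ a : Fin 5 → ℝ, a j = 0 ∧ (∀ i, i ≠ j → 0 < a i) ∧ p = ∑ i, a i • x i := by
  obtain ⟨d, d1, d2, d3⟩ := h5 (ind j) (ind_nonneg j) p h1
  refine ⟨d, d2 j (by simp [ind]), ?_, d3⟩
  intro i hi
  rcases (d1 i).lt_or_eq with h | h
  · exact h
  · exfalso
    rw [d3] at h2
    obtain ⟨e, _, e2, e3⟩ := h5 d d1 _ h2
    have := congrFun (eq_of_sum hx e3) i
    rw [e2 i h.symm] at this
    simp [ind, hi] at this

/-- all elements with positive coefficients are in the relative interior -/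
theorem interior_mem (hC : IsCC C) {x : Fin 5 → V} {f : V} (hf : f ∈ C)
    (h2 : f ∈ Fc C (∑ i, x i))
    (h3 : ∀ r, (∃ c : Fin 5 → ℝ, (∀ i, 0 ≤ c i) ∧ r = ∑ i, c i • x i) → r ∈ Fc C f)
    {c : Fin 5 → ℝ} (hc : ∀ i, 0 < c i) : f ∈ Fc C (∑ i, c i • x i) := by
  have hm : (∑ i, c i • x i) ∈ C := (h3 _ ⟨c, fun i => (hc i).le, rfl⟩).1
  have hs : (∑ i, x i) ∈ Fc C (∑ i, c i • x i) := by
    refine ⟨(h3 _ ⟨fun _ => 1, fun _ => zero_le_one, by simp⟩).1, ∑ i, (c i)⁻¹,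
      Finset.sum_nonneg fun i _ => (inv_pos.2 (hc i)).le, ?_⟩
    have e : (∑ i, (c i)⁻¹) • (∑ i, c i • x i) - ∑ i, x i =
        ∑ i, ((∑ k, (c k)⁻¹) * c i - 1) • x i := by
      simp only [sub_smul, one_smul, Finset.sum_sub_distrib, mul_smul, Finset.smul_sum]
    rw [e]
    refine (h3 _ ⟨fun i => (∑ k, (c k)⁻¹) * c i - 1, ?_, rfl⟩).1
    intro i
    have h1 : (c i)⁻¹ ≤ ∑ k, (c k)⁻¹ :=
      Finset.single_le_sum (f := fun k => (c k)⁻¹) (fun k _ => (inv_pos.2 (hc k)).le)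
        (Finset.mem_univ i)
    have h2 : (c i)⁻¹ * c i = 1 := inv_mul_cancel₀ (hc i).ne'
    have h4 := mul_le_mul_of_nonneg_right h1 (hc i).le
    show (0 : ℝ) ≤ _ - 1
    linarith
  exact tra hC hm hs h2

end coords

/-- The topological part. -/
theorem topo (hNUH : T_NUH) (hH2U : T_H2U) (hLIN3 : T_LIN3) (hSPH : T_SPH)
    {V : Type} [NormedAddCommGroup V] [NormedSpace ℝ V] [FiniteDimensional ℝ V]
    {m : PN 2 → V} (hk : Kit m) (ξ : V →ₗ[ℝ] ℝ) (Λ : V →ₗ[ℝ] (Fin 3 → ℝ))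
    (hξ : ∀ x, ξ (m x) < 0 → Λ (m x) ≠ 0)
    (α₀ α₂ : C(Sph 2, PN 2)) (i₀ : Function.Injective (HH.map (ZMod 2) 2 α₀))
    (i₂ : Function.Injective (HH.map (ZMod 2) 2 α₂))
    (u₀ : ∀ u, ξ (m (α₀ u)) < 0) (u₂ : ∀ u, ξ (m (α₂ u)) < 0)
    (A : (Fin 3 → ℝ) →ₗ[ℝ] (Fin 3 → ℝ)) (hA : Function.Injective A)
    (hA2 : ∀ u : Sph 2, ∃ c : ℝ, 0 < c ∧ Λ (m (α₀ u)) = c • A u.1)
    (p₂ : V) (hp₂ : ∀ (r : I) (u : Sph 2), Λ ((1 - (r : ℝ)) • m (α₂ u) + (r : ℝ) • p₂) ≠ 0) :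
    False := by
  have hΛc : Continuous Λ := LinearMap.continuous_of_finiteDimensional Λ
  have hmc : Continuous m := hk.cfg.cont
  obtain ⟨U, hU⟩ : ∃ U : Set (PN 2), U = {x : PN 2 | ξ (m x) < 0} := ⟨_, rfl⟩
  have hmem : ∀ x, x ∈ U ↔ ξ (m x) < 0 := by
    intro x
    rw [hU]
    exact Iff.rfl
  let a₀ : C(Sph 2, U) := ⟨fun u => ⟨α₀ u, (hmem _).2 (u₀ u)⟩, α₀.continuous.subtype_mk _⟩
  let a₂ : C(Sph 2, U) := ⟨fun u => ⟨α₂ u, (hmem _).2 (u₂ u)⟩, α₂.continuous.subtype_mk _⟩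
  let lam : C(U, {y : Fin 3 → ℝ // y ≠ 0}) :=
    ⟨fun x => ⟨Λ (m x.1), hξ _ ((hmem _).1 x.2)⟩,
      (hΛc.comp (hmc.comp continuous_subtype_val)).subtype_mk _⟩
  have hot : Function.Injective (HH.map (ZMod 2) 2 (inc U)) := by
    rw [hU]
    exact hk.cfg.ot ξ 2
  haveI : Nontrivial (HH (ZMod 2) 2 (Sph 2)) := hSPH.1 2
  obtain ⟨z, hz⟩ := exists_ne (0 : HH (ZMod 2) 2 (Sph 2))
  have e₀ : HH.map (ZMod 2) 2 α₀ z ≠ 0 := fun h => hz (i₀ (by rw [h, map_zero]))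
  have e₂ : HH.map (ZMod 2) 2 α₂ z ≠ 0 := fun h => hz (i₂ (by rw [h, map_zero]))
  have e := hH2U _ _ e₀ e₂
  have c₀ : (inc U).comp a₀ = α₀ := by
    ext u
    rfl
  have c₂ : (inc U).comp a₂ = α₂ := by
    ext u
    rfl
  rw [← c₀, ← c₂, HH.map_comp, HH.map_comp] at e
  have e1 := hot e
  have e2 : HH.map (ZMod 2) 2 (lam.comp a₀) z = HH.map (ZMod 2) 2 (lam.comp a₂) z := by
    rw [HH.map_comp, HH.map_comp, e1]
  have hc : Continuous fun s : I × Sph 2 =>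
      Λ ((1 - (s.1 : ℝ)) • m (α₂ s.2) + (s.1 : ℝ) • p₂) := by
    apply hΛc.comp
    have h1 : Continuous fun s : I × Sph 2 => (s.1 : ℝ) :=
      continuous_subtype_val.comp continuous_fst
    have h2 : Continuous fun s : I × Sph 2 => m (α₂ s.2) :=
      hmc.comp (α₂.continuous.comp continuous_snd)
    exact ((continuous_const.sub h1).smul h2).add (h1.smul continuous_const)
  let H : C(I × Sph 2, {y : Fin 3 → ℝ // y ≠ 0}) :=
    ⟨fun s => ⟨Λ ((1 - (s.1 : ℝ)) • m (α₂ s.2) + (s.1 : ℝ) • p₂), hp₂ s.1 s.2⟩, hc.subtype_mk _⟩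
  have hz1 : Λ p₂ ≠ 0 := by
    have hne : Nonempty (Sph 2) := ⟨⟨fun _ => 1, fun h => one_ne_zero (congrFun h 0)⟩⟩
    obtain ⟨u⟩ := hne
    have := hp₂ 1 u
    simpa using this
  have n2 : HH.map (ZMod 2) 2 (lam.comp a₂) z = 0 := by
    refine hNUH (Sph 2) {y : Fin 3 → ℝ // y ≠ 0} (lam.comp a₂) H ⟨Λ p₂, hz1⟩ ?_ ?_ z
    · intro s
      apply Subtype.ext
      show Λ ((1 - ((0 : I) : ℝ)) • m (α₂ s) + ((0 : I) : ℝ) • p₂) = Λ (m (α₂ s))
      simp
    · intro s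
      apply Subtype.ext
      show Λ ((1 - ((1 : I) : ℝ)) • m (α₂ s) + ((1 : I) : ℝ) • p₂) = Λ p₂
      simp
  have n0 : Function.Injective (HH.map (ZMod 2) 2 (lam.comp a₀)) :=
    hLIN3 A (lam.comp a₀) hA hA2
  apply hz
  apply n0
  rw [map_zero, e2, n2]

theorem pf_EXA (hP1X : T_P1X) (hNUH : T_NUH) (hH2U : T_H2U) (hLIN3 : T_LIN3) (hLAM : T_LAM)
    (hHSU : T_HSU) (hSPH : T_SPH) (h : T_GNF) : T_EXA := by
  intro V _ _ _ m hk x f hf hG hno hE0 hE1 hE2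
  have hC : IsCC (Cn m) := hk.cc
  obtain ⟨-, g2, g3, -, g5, -⟩ := h V (Cn m) f 5 x hC hf hG
  have hx : LinearIndependent ℝ x := hG.1
  obtain ⟨e, he⟩ := hC.pos
  have hm0 : ∀ y, m y ≠ 0 := by
    intro y hy
    obtain ⟨e', he'⟩ := hk.cfg.pos
    have := he' y
    rw [hy, map_zero] at this
    exact lt_irrefl _ this
  have hmM : ∀ y, m y ∈ Mh m := fun y => ⟨1, y, zero_le_one, (one_smul _ _).symm⟩
  have s0 : x 1 + x 2 + x 3 + x 4 = ∑ i, ind 0 i • x i := by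
    simp [Fin.sum_univ_five, ind]
  have s1 : x 0 + x 2 + x 3 + x 4 = ∑ i, ind 1 i • x i := by
    simp [Fin.sum_univ_five, ind]
  have s2 : x 0 + x 1 + x 3 + x 4 = ∑ i, ind 2 i • x i := by
    simp [Fin.sum_univ_five, ind]
  rw [s0] at hE0
  rw [s1] at hE1
  rw [s2] at hE2
  have hfac : ∀ j, (∑ i, ind j i • x i) ∈ Fc (Cn m) f := fun j => g3 _ ⟨ind j, ind_nonneg j, rfl⟩
  obtain ⟨p₀, j₀, α₀, p1, p2, p3, p4, j1, j2, j3, j4, j5, j6, α1, α2, α3⟩ :=
    hP1X V m hk.cfg _ e hE0 he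
  obtain ⟨p₁, _, _, q1, q2, q3, -⟩ := hP1X V m hk.cfg _ e hE1 he
  obtain ⟨p₂, _, α₂, r1, r2, r3, r4, -, -, -, -, -, -, β1, -, β3⟩ := hP1X V m hk.cfg _ e hE2 he
  obtain ⟨a, a0, a1, a2⟩ := coords hx g5 0 p₀ p1 p2
  obtain ⟨b, b0, b1, b2⟩ := coords hx g5 1 p₁ q1 q2
  obtain ⟨Λ, l1, l2, l3⟩ := hLAM V x a b hx a0 a1 b0 b1
  rw [← a2] at l1
  rw [← b2] at l2
  -- no zeros on the image points in the face
  have hL1 : ∀ y, m y ∈ Fc (Cn m) f → Λ (m y) ≠ 0 := by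
    intro y hy h0
    obtain ⟨c, c1, c2⟩ := hG.2.2.2 _ hy
    rw [c2] at h0
    obtain ⟨r, s, hrs⟩ := l3 c h0
    have hb0 : 0 < b 0 := b1 0 (by decide)
    have ha1 : 0 < a 1 := a1 1 (by decide)
    have hs : 0 ≤ s := by
      have h1 := c1 0
      rw [hrs 0, a0, mul_zero, zero_add] at h1
      exact nonneg_of_mul_nonneg_left h1 hb0
    have hr : 0 ≤ r := by
      have h1 := c1 1
      rw [hrs 1, b0, mul_zero, add_zero] at h1
      exact nonneg_of_mul_nonneg_left h1 ha1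
    have hsum : m y = r • p₀ + s • p₁ := by
      rw [c2, a2, b2, Finset.smul_sum, Finset.smul_sum, ← Finset.sum_add_distrib]
      refine Finset.sum_congr rfl fun i _ => ?_
      rw [hrs i, add_smul, mul_smul, mul_smul]
    rcases hr.lt_or_eq with hr | hr
    · rcases hs.lt_or_eq with hs | hs
      · have hpos : ∀ i, 0 < c i := by
          intro i
          rw [hrs i]
          by_cases hi : i = 0
          · subst hi
            rw [a0, mul_zero, zero_add]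
            exact mul_pos hs hb0
          · by_cases hi1 : i = 1
            · subst hi1
              rw [b0, mul_zero, add_zero]
              exact mul_pos hr ha1
            · exact add_pos (mul_pos hr (a1 i hi)) (mul_pos hs (b1 i hi1))
        refine hno (m y) hy ?_ (hmM y)
        rw [c2]
        exact interior_mem hC hf g2 g3 hpos
      · rw [← hs, zero_smul, add_zero] at hsum
        apply p3
        have : p₀ = r⁻¹ • m y := by
          rw [hsum, smul_smul, inv_mul_cancel₀ hr.ne', one_smul]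
        rw [this]
        exact hk.smul _ (inv_pos.2 hr).le _ (hmM y)
    · rw [← hr, zero_smul, zero_add] at hsum
      have hs' : 0 < s := by
        rcases hs.lt_or_eq with hs | hs
        · exact hs
        · exfalso
          rw [← hs, zero_smul] at hsum
          exact hm0 y hsum
      apply q3
      have : p₁ = s⁻¹ • m y := by
        rw [hsum, smul_smul, inv_mul_cancel₀ hs'.ne', one_smul]
      rw [this]
      exact hk.smul _ (inv_pos.2 hs').le _ (hmM y)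
  -- no zeros on the facet `Q2`
  have hL2 : ∀ w ∈ Fc (Cn m) (∑ i, ind 2 i • x i), w ≠ 0 → Λ w ≠ 0 := by
    intro w hw hw0 h0
    obtain ⟨c, c1, c3, c2⟩ := g5 (ind 2) (ind_nonneg 2) w hw
    rw [c2] at h0
    obtain ⟨r, s, hrs⟩ := l3 c h0
    have hb0 : 0 < b 0 := b1 0 (by decide)
    have ha1 : 0 < a 1 := a1 1 (by decide)
    have hs : 0 ≤ s := by
      have h1 := c1 0
      rw [hrs 0, a0, mul_zero, zero_add] at h1
      exact nonneg_of_mul_nonneg_left h1 hb0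
    have hr : 0 ≤ r := by
      have h1 := c1 1
      rw [hrs 1, b0, mul_zero, add_zero] at h1
      exact nonneg_of_mul_nonneg_left h1 ha1
    have h2 := c3 2 (by simp [ind])
    rw [hrs 2] at h2
    have ha2 : 0 < a 2 := a1 2 (by decide)
    have hb2 : 0 < b 2 := b1 2 (by decide)
    have hra : 0 ≤ r * a 2 := mul_nonneg hr ha2.le
    have hsb : 0 ≤ s * b 2 := mul_nonneg hs hb2.le
    have hr0 : r = 0 := by
      have : r * a 2 = 0 := by linarith
      exact (mul_eq_zero.1 this).resolve_right ha2.ne'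
    have hs0 : s = 0 := by
      have : s * b 2 = 0 := by linarith
      exact (mul_eq_zero.1 this).resolve_right hb2.ne'
    apply hw0
    rw [c2]
    apply Finset.sum_eq_zero
    intro i _
    rw [hrs i, hr0, hs0, zero_mul, zero_mul, add_zero, zero_smul]
  obtain ⟨ξ, x1, x2⟩ := hHSU V m f Λ hk hf hL1
  obtain ⟨gp, -, -, -, -, -⟩ := Pool.Agent.H67.KU.pf_gau (Fin 3 → ℝ)
    (j₀ ⁻¹' Fc (Cn m) (∑ i, ind 0 i • x i)) j4 j5 j6
  have hjl : ∀ y, j₀ y = j₀.linear y + p₀ := by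
    intro y
    have := j₀.linearMap_vsub y 0
    rw [vsub_eq_sub, vsub_eq_sub, sub_zero, j2] at this
    rw [this, sub_add_cancel]
  have hsp : ∀ v ∈ Sp (Cn m) (∑ i, ind 0 i • x i), ∃ c : Fin 5 → ℝ, c 0 = 0 ∧
      v = ∑ i, c i • x i := by
    intro v hv
    refine Submodule.span_induction ?_ ?_ ?_ ?_ hv
    · intro w hw
      obtain ⟨c, _, c3, c2⟩ := g5 (ind 0) (ind_nonneg 0) w hw
      exact ⟨c, c3 0 (by simp [ind]), c2⟩
    · exact ⟨fun _ => 0, rfl, by simp⟩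
    · rintro v w _ _ ⟨c, c1, rfl⟩ ⟨d, d1, rfl⟩
      refine ⟨fun i => c i + d i, by simp [c1, d1], ?_⟩
      simp only [add_smul, Finset.sum_add_distrib]
    · rintro t v _ ⟨c, c1, rfl⟩
      refine ⟨fun i => t * c i, by simp [c1], ?_⟩
      simp only [mul_smul, Finset.smul_sum]
  have hp0s : p₀ ∈ Sp (Cn m) (∑ i, ind 0 i • x i) := mem_sp p1
  refine topo hNUH hH2U hLIN3 hSPH hk ξ Λ x2 α₀ α₂ α3 β3 ?_ ?_ (Λ.comp j₀.linear) ?_ ?_ p₂ ?_
  · intro u
    exact x1 _ (tra hC hf (hfac 0) (α1 u).1) (α1 u).2.1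
  · intro u
    exact x1 _ (tra hC hf (hfac 2) (β1 u).1) (β1 u).2.1
  · rw [← LinearMap.ker_eq_bot, LinearMap.ker_eq_bot']
    intro y hy
    have hy' : Λ (j₀.linear y) = 0 := hy
    have hv : j₀.linear y ∈ Sp (Cn m) (∑ i, ind 0 i • x i) := by
      have e1 : j₀.linear y = j₀ y - p₀ := by rw [hjl y, add_sub_cancel_right]
      rw [e1]
      exact Submodule.sub_mem _ (j3 y).1 hp0s
    have hev : e (j₀.linear y) = 0 := by
      have e1 : j₀.linear y = j₀ y - p₀ := by rw [hjl y, add_sub_cancel_right]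
      rw [e1, map_sub, (j3 y).2, p4, sub_self]
    obtain ⟨c, c1, c2⟩ := hsp _ hv
    rw [c2] at hy'
    obtain ⟨r, s, hrs⟩ := l3 c hy'
    have hb0 : 0 < b 0 := b1 0 (by decide)
    have hs0 : s = 0 := by
      have h1 := hrs 0
      rw [c1, a0, mul_zero, zero_add] at h1
      exact (mul_eq_zero.1 h1.symm).resolve_right hb0.ne'
    have hv2 : j₀.linear y = r • p₀ := by
      rw [c2, a2, Finset.smul_sum]
      refine Finset.sum_congr rfl fun i _ => ?_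
      rw [hrs i, hs0, zero_mul, add_zero, mul_smul]
    rw [hv2, map_smul, p4, smul_eq_mul, mul_one] at hev
    rw [hev, zero_smul] at hv2
    apply j1
    rw [hjl y, hv2, zero_add, j2]
  · intro u
    obtain ⟨c, hc, hcu⟩ := α2 u
    have hg : 0 < gauge (j₀ ⁻¹' Fc (Cn m) (∑ i, ind 0 i • x i)) u.1 := gp u.1 u.2
    refine ⟨c * (gauge (j₀ ⁻¹' Fc (Cn m) (∑ i, ind 0 i • x i)) u.1)⁻¹,
      mul_pos hc (inv_pos.2 hg), ?_⟩
    rw [hcu, map_smul, hjl, map_add, l1, add_zero]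
    show c • Λ (j₀.linear ((gauge (j₀ ⁻¹' Fc (Cn m) (∑ i, ind 0 i • x i)) u.1)⁻¹ • u.1)) = _
    rw [map_smul, map_smul, smul_smul]
    rfl
  · intro r u
    have hr0 : (0 : ℝ) ≤ r := r.2.1
    have hr1 : (0 : ℝ) ≤ 1 - r := sub_nonneg.2 r.2.2
    have hQ : (∑ i, ind 2 i • x i) ∈ Cn m := (hfac 2).1
    apply hL2
    · exact add_fc hC hQ (smul_fc hC hQ hr1 (β1 u).1) (smul_fc hC hQ hr0 r1)
    · intro h0
      have h1 : e ((1 - (r : ℝ)) • m (α₂ u) + (r : ℝ) • p₂) = 0 := by rw [h0, map_zero]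
      rw [map_add, map_smul, map_smul, r4, smul_eq_mul, smul_eq_mul, mul_one] at h1
      have h2 : 0 < e (m (α₂ u)) := he _ (β1 u).1.1 (β1 u).2.1
      have h3 : 0 ≤ (1 - (r : ℝ)) * e (m (α₂ u)) := mul_nonneg hr1 h2.le
      have hr : (r : ℝ) = 0 := by linarith
      rw [hr, sub_zero, one_mul, add_zero] at h1
      exact h2.ne' h1

end Pool.Agent.H35.KW.EXA
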